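import Pool.Agent.Helper60.SB.Defs3

/-!
Module U9: entropy of the level sets in the uniform norm.
The modules U4 (`l2linf`), U7 (`Sset_l2`), U8 (`Sset_two`, `Sset_mono`, `Sset_trunc`) are taken as
explicit hypotheses with the exact statements of the stubs (with `p0 b` written out).
-/

open Finset MeasureTheory
open scoped ENNReal Real

namespace Pool.Agent.Helper50.SB

open Pool.Agent.Helper60.SB

theorem cov_mono {V : Type*} {S : Set V} {R R' : V → V → Prop} {K K' : ℝ} (h : Cov S R K)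
    (hR : ∀ a y, R a y → R' a y) (hK : K ≤ K') : Cov S R' K' := by
  obtain ⟨t, ht, h1⟩ := h
  refine ⟨t, ht.trans (Real.exp_le_exp.mpr hK), fun a ha => ?_⟩
  obtain ⟨y, hy, h2⟩ := h1 a ha
  exact ⟨y, hy, hR a y h2⟩

theorem cov_comp {ι : Type*} [Fintype ι] (q : Seminorm ℝ (ι → ℝ)) {S : Set (ι → ℝ)}
    {ε E K1 K2 : ℝ} (hε : 0 < ε) (h1 : Cov S (eucl ε) K1)
    (h2 : Cov {y : ι → ℝ | ∑ i, y i ^ 2 ≤ 1} (fun a y => q (a - y) ≤ E) K2) :
    Cov S (fun a y => q (a - y) ≤ ε * E) (K1 + K2) := by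
  classical
  obtain ⟨t1, ht1, h1⟩ := h1
  obtain ⟨t2, ht2, h2⟩ := h2
  refine ⟨(t1 ×ˢ t2).image (fun z => z.1 + ε • z.2), ?_, fun a ha => ?_⟩
  · have h3 : (((t1 ×ˢ t2).image (fun z => z.1 + ε • z.2)).card : ℝ) ≤ t1.card * t2.card := by
      have h4 := (Finset.card_image_le (s := t1 ×ˢ t2) (f := fun z => z.1 + ε • z.2))
      rw [Finset.card_product] at h4
      exact_mod_cast h4
    refine h3.trans ?_
    rw [Real.exp_add]
    exact mul_le_mul ht1 ht2 (Nat.cast_nonneg _) (Real.exp_nonneg _)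
  · obtain ⟨y1, hy1, h3⟩ := h1 a ha
    have h4 : ε⁻¹ • (a - y1) ∈ {y : ι → ℝ | ∑ i, y i ^ 2 ≤ 1} := by
      have h5 : ∑ i, (ε⁻¹ • (a - y1)) i ^ 2 = ε⁻¹ ^ 2 * ∑ i, (a i - y1 i) ^ 2 := by
        rw [Finset.mul_sum]
        refine Finset.sum_congr rfl fun i _ => ?_
        simp only [Pi.smul_apply, Pi.sub_apply, smul_eq_mul]
        ring
      change ∑ i, (ε⁻¹ • (a - y1)) i ^ 2 ≤ 1
      rw [h5]
      have h6 : ∑ i, (a i - y1 i) ^ 2 ≤ ε ^ 2 := h3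
      calc ε⁻¹ ^ 2 * ∑ i, (a i - y1 i) ^ 2 ≤ ε⁻¹ ^ 2 * ε ^ 2 :=
            mul_le_mul_of_nonneg_left h6 (by positivity)
        _ = 1 := by
            rw [← mul_pow, inv_mul_cancel₀ hε.ne', one_pow]
    obtain ⟨y2, hy2, h5⟩ := h2 _ h4
    refine ⟨y1 + ε • y2, Finset.mem_image.mpr ⟨(y1, y2), Finset.mem_product.mpr ⟨hy1, hy2⟩, rfl⟩, ?_⟩
    have h6 : a - (y1 + ε • y2) = ε • (ε⁻¹ • (a - y1) - y2) := by
      rw [smul_sub, smul_smul, mul_inv_cancel₀ hε.ne', one_smul]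
      abel
    change q (a - (y1 + ε • y2)) ≤ ε * E
    rw [h6, map_smul_eq_mul, Real.norm_eq_abs, abs_of_pos hε]
    exact mul_le_mul_of_nonneg_left h5 hε.le

/-- the Euclidean distance of sums -/
theorem eucl_add {ι : Type*} [Fintype ι] {c1 c2 ρ ε r : ℝ} {y1 y2 z : ι → ℝ}
    (h1 : ∑ i, y1 i ^ 2 ≤ ρ ^ 2) (h2 : eucl ε y2 z) (h3 : c1 ^ 2 * ρ ^ 2 ≤ r ^ 2)
    (h4 : c2 ^ 2 * ε ^ 2 ≤ r ^ 2) : eucl (2 * r) (c1 • y1 + c2 • y2) (c2 • z) := by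
  unfold eucl at h2 ⊢
  have h5 : ∀ i, ((c1 • y1 + c2 • y2) i - (c2 • z) i) ^ 2 ≤
      2 * (c1 ^ 2 * y1 i ^ 2) + 2 * (c2 ^ 2 * (y2 i - z i) ^ 2) := by
    intro i
    simp only [Pi.add_apply, Pi.smul_apply, smul_eq_mul]
    nlinarith [sq_nonneg (c1 * y1 i - c2 * (y2 i - z i))]
  calc ∑ i, ((c1 • y1 + c2 • y2) i - (c2 • z) i) ^ 2
      ≤ ∑ i, (2 * (c1 ^ 2 * y1 i ^ 2) + 2 * (c2 ^ 2 * (y2 i - z i) ^ 2)) :=
        Finset.sum_le_sum fun i _ => h5 i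
    _ = 2 * (c1 ^ 2 * ∑ i, y1 i ^ 2) + 2 * (c2 ^ 2 * ∑ i, (y2 i - z i) ^ 2) := by
        rw [Finset.sum_add_distrib, ← Finset.mul_sum, ← Finset.mul_sum, ← Finset.mul_sum,
          ← Finset.mul_sum]
    _ ≤ 2 * (c1 ^ 2 * ρ ^ 2) + 2 * (c2 ^ 2 * ε ^ 2) := by
        gcongr
    _ ≤ (2 * r) ^ 2 := by nlinarith

/-- choice of the exponent `b` -/
theorem exists_b {p κ : ℝ} (hp1 : 1 < p) (hκ : 1 / p < κ) (hp2 : p < 2) :
    ∃ b : ℕ, 2 ≤ b ∧ 2 * (b : ℝ) / (2 * b - 1) ≤ p ∧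
      (b : ℝ) / (p * (b - 1)) * (1 - p / 2) + 1 / 2 ≤ κ := by
  have hp0 : 0 < p := by linarith
  obtain ⟨b, hb⟩ := exists_nat_ge (max 2 (max (p / (2 * (p - 1)))
    (1 + (1 / p - 1 / 2) / (κ - 1 / p))))
  have hb1 : (2 : ℝ) ≤ b := (le_max_left _ _).trans hb
  have hb2 : p / (2 * (p - 1)) ≤ b := ((le_max_left _ _).trans (le_max_right _ _)).trans hb
  have hb3 : 1 + (1 / p - 1 / 2) / (κ - 1 / p) ≤ b :=
    ((le_max_right _ _).trans (le_max_right _ _)).trans hb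
  refine ⟨b, by exact_mod_cast hb1, ?_, ?_⟩
  · rw [div_le_iff₀ (by linarith)]
    rw [div_le_iff₀ (by linarith)] at hb2
    nlinarith
  · have h1 : (1 / p - 1 / 2) / (κ - 1 / p) ≤ (b : ℝ) - 1 := by linarith
    rw [div_le_iff₀ (by linarith)] at h1
    have hb4 : (0 : ℝ) < b - 1 := by linarith
    have h2 : (b : ℝ) / (p * (b - 1)) * (1 - p / 2) + 1 / 2 =
        1 / p + (1 / p - 1 / 2) / (b - 1) := by
      field_simp
      ring
    rw [h2]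
    have h3 : (1 / p - 1 / 2) / ((b : ℝ) - 1) ≤ κ - 1 / p := by
      rw [div_le_iff₀ hb4]
      linarith
    linarith


/-- Module U9 -/
theorem level_entropy (d : ℕ)
    (hU4 : ∃ C : ℝ, 1 ≤ C ∧ ∀ (m : ℕ) (Q : Finset (Fin d → ℤ)),
      (∀ k ∈ Q, ∀ j, |k j| ≤ 2 ^ m) → ∀ j : ℕ,
      Cov {y : Q × Bool → ℝ | ∑ i, y i ^ 2 ≤ 1}
        (fun a y => supn Q (a - y) ≤ C * Real.sqrt (m + 1) * (2 : ℝ) ^ (-(j : ℝ)))
        (C * (1 + j) * Q.card + 1) ∧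
      Cov {y : Q × Bool → ℝ | ∑ i, y i ^ 2 ≤ 1}
        (fun a y => supn Q (a - y) ≤ C * Real.sqrt (m + 1) * (2 : ℝ) ^ ((j : ℝ) / 2))
        (Q.card * (2 : ℝ) ^ (-(j : ℝ)) + 1))
    (hU7 : ∀ b : ℕ, 1 ≤ b → ∃ C : ℝ, 0 < C ∧
      ∀ (Q : Finset (Fin d → ℤ)) (B : Type) [Fintype B] [Nonempty B] (bl : (Fin d → ℤ) → B)
        (μ : (Fin d → ℤ) → ℂ), (∀ k, ‖μ k‖ ≤ 1) → ∀ ε : ℝ, 0 < ε →
        Cov (Sset Q B bl μ (ENNReal.ofReal (2 * b / (2 * b - 1)))) (eucl ε)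
          (C * (Fintype.card B * Q.card / ε ^ 2)))
    (hU8a : ∀ (Q : Finset (Fin d → ℤ)) (B : Type) [Fintype B]
      (bl : (Fin d → ℤ) → B) (μ : (Fin d → ℤ) → ℂ), (∀ k, ‖μ k‖ ≤ 1) →
      ∀ (y : Q × Bool → ℝ), y ∈ Sset Q B bl μ 2 → ∑ i, y i ^ 2 ≤ Fintype.card B)
    (hU8b : ∀ (Q : Finset (Fin d → ℤ)) (B : Type)
      (bl : (Fin d → ℤ) → B) (μ : (Fin d → ℤ) → ℂ) (p p' : ℝ≥0∞), p ≤ p' →
      Sset Q B bl μ p' ⊆ Sset Q B bl μ p)
    (hU8c : ∀ (Q : Finset (Fin d → ℤ)) (B : Type)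
      (bl : (Fin d → ℤ) → B) (μ : (Fin d → ℤ) → ℂ) (b : ℕ), 2 ≤ b → ∀ (p : ℝ),
      2 * b / (2 * b - 1) ≤ p → p < 2 → ∀ (A : ℝ), 1 ≤ A → ∀ (y : Q × Bool → ℝ),
      y ∈ Sset Q B bl μ (ENNReal.ofReal p) →
      ∃ y1 ∈ Sset Q B bl μ 2, ∃ y2 ∈ Sset Q B bl μ (ENNReal.ofReal (2 * b / (2 * b - 1))),
        y = A ^ (1 - p / 2) • y1 + A ^ (1 - p * (2 * b - 1) / (2 * b)) • y2)
    (p : ℝ≥0∞) (hp : 1 < p) (κ : ℝ) (hκ1 : 1 / p.toReal < κ)
    (hκ2 : 1 / 2 < κ) : ∃ C : ℝ, 1 ≤ C ∧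
    ∀ (m : ℕ) (Q : Finset (Fin d → ℤ)) (B : Type) [Fintype B] [Nonempty B]
      (bl : (Fin d → ℤ) → B) (μ : (Fin d → ℤ) → ℂ),
      (∀ k ∈ Q, ∀ j, |k j| ≤ 2 ^ m) → (∀ k, ‖μ k‖ ≤ 1) → ∀ j : ℕ,
      Cov (Sset Q B bl μ p)
        (fun a y => supn Q (a - y) ≤
          C * Real.sqrt (Fintype.card B) * Real.sqrt (m + 1) * (2 : ℝ) ^ (-(j : ℝ)))
        (C * (1 + j) * Q.card + 1) ∧
      Cov (Sset Q B bl μ p)
        (fun a y => supn Q (a - y) ≤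
          C * Real.sqrt (Fintype.card B) * Real.sqrt (m + 1) * (2 : ℝ) ^ (κ * j))
        (C * (1 + j) * Q.card * (2 : ℝ) ^ (-(j : ℝ)) + 1) := by
  obtain ⟨C4, hC4, h4⟩ := hU4
  have hC40 : 0 ≤ C4 := by linarith
  -- the case `2 ≤ p`
  rcases le_or_gt 2 p with h2p | hp2
  · refine ⟨C4, hC4, fun m Q B _ _ bl μ hQ hμ j => ?_⟩
    have hs : 0 < Real.sqrt (Fintype.card B) := by
      rw [Real.sqrt_pos]
      exact_mod_cast Fintype.card_pos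
    have h5 : Cov (Sset Q B bl μ p) (eucl (Real.sqrt (Fintype.card B))) 0 := by
      refine ⟨{0}, by simp, fun a ha => ⟨0, by simp, ?_⟩⟩
      have h6 := hU8a Q B bl μ hμ a (hU8b Q B bl μ 2 p h2p ha)
      unfold eucl
      rw [Real.sq_sqrt (Nat.cast_nonneg _)]
      simpa using h6
    obtain ⟨h6, h7⟩ := h4 m Q hQ j
    refine ⟨cov_mono (cov_comp _ hs h5 h6) (fun a y h => h.trans (le_of_eq (by ring)))
      (le_of_eq (by ring)), cov_mono (cov_comp _ hs h5 h7) (fun a y h => h.trans ?_) ?_⟩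
    · have h8 : (2 : ℝ) ^ ((j : ℝ) / 2) ≤ (2 : ℝ) ^ (κ * j) := by
        apply Real.rpow_le_rpow_of_exponent_le (by norm_num)
        have : (0 : ℝ) ≤ j := Nat.cast_nonneg _
        nlinarith
      calc Real.sqrt (Fintype.card B) * (C4 * Real.sqrt (m + 1) * (2 : ℝ) ^ ((j : ℝ) / 2))
          = C4 * Real.sqrt (Fintype.card B) * Real.sqrt (m + 1) * (2 : ℝ) ^ ((j : ℝ) / 2) := by
            ring
        _ ≤ _ := by gcongr
    · rw [zero_add]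
      have h9 : (1 : ℝ) ≤ C4 * (1 + j) := by
        have : (0 : ℝ) ≤ j := Nat.cast_nonneg _
        nlinarith
      have h10 : (0 : ℝ) ≤ Q.card * (2 : ℝ) ^ (-(j : ℝ)) :=
        mul_nonneg (Nat.cast_nonneg _) (Real.rpow_nonneg (by norm_num) _)
      nlinarith
  -- the case `p < 2`
  have hptop : p ≠ ⊤ := (hp2.trans_le le_top).ne
  obtain ⟨P, hP⟩ : ∃ P : ℝ, P = p.toReal := ⟨_, rfl⟩
  have hpP : p = ENNReal.ofReal P := by rw [hP, ENNReal.ofReal_toReal hptop]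
  have hP1 : 1 < P := by
    rw [hP]
    have := (ENNReal.toReal_lt_toReal ENNReal.one_ne_top hptop).mpr hp
    simpa using this
  have hP2 : P < 2 := by
    rw [hP]
    have := (ENNReal.toReal_lt_toReal hptop (by simp)).mpr hp2
    simpa using this
  rw [← hP] at hκ1
  obtain ⟨b, hb2, hbp, hbκ⟩ := exists_b hP1 hκ1 hP2
  have hbR : (2 : ℝ) ≤ b := by exact_mod_cast hb2
  obtain ⟨C7, hC7, h7⟩ := hU7 b (by omega)
  refine ⟨2 * C4 + C7 + 1, by linarith, fun m Q B _ _ bl μ hQ hμ j => ?_⟩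
  have hj0 : (0 : ℝ) ≤ j := Nat.cast_nonneg _
  have hn0 : (0 : ℝ) ≤ Q.card := Nat.cast_nonneg _
  have hβ : (0 : ℝ) < Fintype.card B := by exact_mod_cast Fintype.card_pos
  have hs : 0 < Real.sqrt (Fintype.card B) := Real.sqrt_pos.mpr hβ
  have hs2 : Real.sqrt (Fintype.card B) ^ 2 = Fintype.card B := Real.sq_sqrt hβ.le
  obtain ⟨h4a, h4b⟩ := h4 m Q hQ j
  constructor
  · have h5 : Cov (Sset Q B bl μ p) (eucl (Real.sqrt (Fintype.card B))) (C7 * Q.card) := by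
      obtain ⟨t, ht, h6⟩ := h7 Q B bl μ hμ _ hs
      refine ⟨t, ht.trans (le_of_eq ?_), fun a ha => h6 a ?_⟩
      · rw [hs2, mul_div_assoc, mul_div_cancel₀ _ hβ.ne']
      · refine hU8b Q B bl μ _ p ?_ ha
        rw [hpP]
        exact ENNReal.ofReal_le_ofReal hbp
    refine cov_mono (cov_comp _ hs h5 h4a) (fun a y h => h.trans ?_) ?_
    · calc Real.sqrt (Fintype.card B) * (C4 * Real.sqrt (m + 1) * (2 : ℝ) ^ (-(j : ℝ)))
          = C4 * Real.sqrt (Fintype.card B) * Real.sqrt (m + 1) * (2 : ℝ) ^ (-(j : ℝ)) := by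
            ring
        _ ≤ _ := by
            gcongr
            linarith
    · have h6 : 0 ≤ C7 * j * (Q.card : ℝ) := mul_nonneg (mul_nonneg hC7.le hj0) hn0
      have h9 : 0 ≤ (1 + j) * (Q.card : ℝ) := mul_nonneg (by linarith) hn0
      have h8 : 0 ≤ C4 * ((1 + j) * (Q.card : ℝ)) := mul_nonneg hC40 h9
      nlinarith
  · -- the second part
    obtain ⟨θ, hθ⟩ : ∃ θ : ℝ, θ = b / (P * (b - 1)) := ⟨_, rfl⟩
    have hb1 : (0 : ℝ) < b - 1 := by linarith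
    have hθ0 : 0 < θ := by rw [hθ]; positivity
    obtain ⟨A, hA⟩ : ∃ A : ℝ, A = (2 : ℝ) ^ (θ * j) := ⟨_, rfl⟩
    have hA1 : 1 ≤ A := by
      rw [hA]
      exact Real.one_le_rpow (by norm_num) (by positivity)
    have hA0 : 0 < A := by linarith
    obtain ⟨ε, hε⟩ : ∃ ε : ℝ, ε = Real.sqrt (Fintype.card B) * A ^ (P * (b - 1) / (2 * b)) :=
      ⟨_, rfl⟩
    have hε0 : 0 < ε := by
      rw [hε]
      exact mul_pos hs (Real.rpow_pos_of_pos hA0 _)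
    obtain ⟨r, hr⟩ : ∃ r : ℝ, r = Real.sqrt (Fintype.card B) * A ^ (1 - P / 2) := ⟨_, rfl⟩
    have hr0 : 0 < r := by
      rw [hr]
      exact mul_pos hs (Real.rpow_pos_of_pos hA0 _)
    have h5 : Cov (Sset Q B bl μ p) (eucl (2 * r)) (C7 * (Q.card * (2 : ℝ) ^ (-(j : ℝ)))) := by
      classical
      obtain ⟨t, ht, h6⟩ := h7 Q B bl μ hμ _ hε0
      refine ⟨t.image (fun z => A ^ (1 - P * (2 * b - 1) / (2 * b)) • z), ?_, fun a ha => ?_⟩
      · have h8 : ((t.image (fun z => A ^ (1 - P * (2 * b - 1) / (2 * b)) • z)).card : ℝ) ≤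
            t.card := by exact_mod_cast Finset.card_image_le
        refine (h8.trans ht).trans (le_of_eq ?_)
        have h9 : ε ^ 2 = Fintype.card B * (2 : ℝ) ^ (j : ℝ) := by
          rw [hε, mul_pow, hs2, hA, ← Real.rpow_mul (by norm_num), ← Real.rpow_natCast _ 2,
            ← Real.rpow_mul (by norm_num)]
          congr 2
          rw [hθ]
          push_cast
          field_simp
        have h10 : (0 : ℝ) < (2 : ℝ) ^ (j : ℝ) := Real.rpow_pos_of_pos (by norm_num) _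
        rw [h9, Real.rpow_neg (by norm_num), mul_div_mul_left _ _ hβ.ne', div_eq_mul_inv]
      · rw [hpP] at ha
        obtain ⟨y1, hy1, y2, hy2, h8⟩ := hU8c Q B bl μ b hb2 P hbp hP2 A hA1 a ha
        obtain ⟨z, hz, h9⟩ := h6 y2 hy2
        refine ⟨_, Finset.mem_image_of_mem _ hz, ?_⟩
        rw [h8]
        refine eucl_add (ρ := Real.sqrt (Fintype.card B)) (ε := ε) ?_ h9 (le_of_eq ?_)
          (le_of_eq ?_)
        · rw [hs2]
          exact hU8a Q B bl μ hμ y1 hy1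
        · rw [hr]
          ring
        · rw [← mul_pow, hr, hε]
          congr 1
          rw [mul_left_comm, ← Real.rpow_add hA0]
          congr 2
          field_simp
          ring
    refine cov_mono (cov_comp _ (by positivity) h5 h4b) (fun a y h => h.trans ?_) ?_
    · have h6 : A ^ (1 - P / 2) * (2 : ℝ) ^ ((j : ℝ) / 2) ≤ (2 : ℝ) ^ (κ * j) := by
        rw [hA, ← Real.rpow_mul (by norm_num), ← Real.rpow_add (by norm_num)]
        apply Real.rpow_le_rpow_of_exponent_le (by norm_num)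
        rw [← hθ] at hbκ
        nlinarith
      calc 2 * r * (C4 * Real.sqrt (m + 1) * (2 : ℝ) ^ ((j : ℝ) / 2))
          = 2 * C4 * Real.sqrt (Fintype.card B) * Real.sqrt (m + 1) *
              (A ^ (1 - P / 2) * (2 : ℝ) ^ ((j : ℝ) / 2)) := by
            rw [hr]
            ring
        _ ≤ _ := by
            gcongr
            linarith
    · have h10 : (0 : ℝ) ≤ Q.card * (2 : ℝ) ^ (-(j : ℝ)) :=
        mul_nonneg hn0 (Real.rpow_nonneg (by norm_num) _)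
      have h11 : 0 ≤ (2 * C4 + C7 + 1) * (j * ((Q.card : ℝ) * (2 : ℝ) ^ (-(j : ℝ)))) :=
        mul_nonneg (by linarith) (mul_nonneg hj0 h10)
      nlinarith [mul_nonneg hC40 h10]

end Pool.Agent.Helper50.SB
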